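import Pool.Agent.R538.Heap2

/-!
# The misère domination game, and its positions on lines
-/

namespace Pool.Agent.R538.Dom

open Classical in
/-- The closed neighbourhood of a vertex. -/
noncomputable def nb {V : Type} [Fintype V] (G : SimpleGraph V) (v : V) : Finset V :=
  Finset.univ.filter fun u => u = v ∨ G.Adj v u

/-- `v` is a legal move when `D` is the set of the vertices dominated so far: its closed
neighbourhood is not contained in `D`. -/
def Legal {V : Type} [Fintype V] (G : SimpleGraph V) (D : Finset V) (v : V) : Prop :=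
  ¬ nb G v ⊆ D

open Classical in
/-- The player to move wins the misère domination game on `G` when `D` is the set of the vertices
dominated so far: either there is no legal move, or some legal move leads to a position in which
the player to move (now the opponent) does not win. -/
def Wins {V : Type} [Fintype V] (G : SimpleGraph V) (D : Finset V) : Prop :=
  (∀ v, ¬ Legal G D v) ∨ ∃ v, ∃ _ : Legal G D v, ¬ Wins G (D ∪ nb G v)
termination_by (Finset.univ \ D).card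
decreasing_by
  rename_i hv
  obtain ⟨u, hu, huD⟩ := Finset.not_subset.1 hv
  apply Finset.card_lt_card
  refine Finset.ssubset_iff_subset_ne.2 ⟨?_, ?_⟩
  · intro x hx
    simp only [Finset.mem_sdiff, Finset.mem_univ, true_and, Finset.mem_union, not_or] at hx ⊢
    exact hx.1
  · intro h
    have h1 : u ∈ Finset.univ \ D := by simp [huD]
    rw [← h] at h1
    simp [hu] at h1

variable {V : Type} [Fintype V] {G : SimpleGraph V}

theorem mem_nb {u v : V} : u ∈ nb G v ↔ u = v ∨ G.Adj v u := by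
  classical
  simp [nb]

theorem wins_iff [inst : DecidableEq V] (D : Finset V) :
    Wins G D ↔ (∀ v, ¬ Legal G D v) ∨ ∃ v, Legal G D v ∧ ¬ Wins G (D ∪ nb G v) := by
  have h : inst = fun a b => Classical.propDecidable (a = b) := Subsingleton.elim _ _
  subst h
  rw [Wins]
  simp only [exists_prop]

/-- The cells of a list of intervals (first cell, length). -/
def Cov (L : List (ℤ × ℕ)) : Set ℤ := {x | ∃ p ∈ L, p.1 ≤ x ∧ x < p.1 + p.2}

/-- The heaps of a list of intervals -/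
def hp (L : List (ℤ × ℕ)) : Multiset ℕ := ((L.map Prod.snd : List ℕ) : Multiset ℕ)

/-- separated intervals -/
def Sep (p q : ℤ × ℕ) : Prop :=
  ∀ x y, p.1 ≤ x → x < p.1 + p.2 → q.1 ≤ y → y < q.1 + q.2 → x + 3 ≤ y ∨ y + 3 ≤ x

theorem Sep.symm {p q : ℤ × ℕ} (h : Sep p q) : Sep q p :=
  fun x y h1 h2 h3 h4 => (h y x h3 h4 h1 h2).symm

/-- admissible lists of intervals -/
structure Ok (lo hi : ℤ) (L : List (ℤ × ℕ)) : Prop where
  sep : L.Pairwise Sep
  bdy : ∀ p ∈ L, 0 < p.2 → lo < p.1 ∨ p.1 + p.2 < hi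
  rng : ∀ x ∈ Cov L, lo ≤ x ∧ x < hi

theorem Ok.perm {lo hi : ℤ} {L L' : List (ℤ × ℕ)} (h : Ok lo hi L) (hp : L.Perm L') :
    Ok lo hi L' := by
  refine ⟨(hp.pairwise_iff (fun h => Sep.symm h)).1 h.sep, fun p hp' => h.bdy p (hp.mem_iff.2 hp'),
    fun x hx => h.rng x ?_⟩
  obtain ⟨p, hp', h'⟩ := hx
  exact ⟨p, hp.mem_iff.2 hp', h'⟩

theorem cov_perm {L L' : List (ℤ × ℕ)} (hp : L.Perm L') : Cov L = Cov L' := by
  ext x
  constructor
  · rintro ⟨p, hp', h'⟩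
    exact ⟨p, hp.mem_iff.1 hp', h'⟩
  · rintro ⟨p, hp', h'⟩
    exact ⟨p, hp.mem_iff.2 hp', h'⟩

theorem hp_perm {L L' : List (ℤ × ℕ)} (h : L.Perm L') : hp L = hp L' := by
  unfold hp
  exact Multiset.coe_eq_coe.2 (h.map _)

/-- One move on one interval: the centre and the resulting intervals. -/
inductive Loc (a : ℤ) : ℕ → ℤ → List (ℤ × ℕ) → Prop
  | left (h : ℕ) : Loc a (h + 1) (a - 1) [(a + 1, h)]
  | right (h : ℕ) : Loc a (h + 1) (a + (h + 1)) [(a, h)]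
  | one : Loc a 1 a [(a, 0)]
  | left2 (h : ℕ) : Loc a (h + 2) a [(a + 2, h)]
  | right2 (h : ℕ) : Loc a (h + 2) (a + (h + 1)) [(a, h)]
  | mid (b c : ℕ) : Loc a (b + c + 3) (a + (b + 1)) [(a, b), (a + (b + 3), c)]

theorem Loc.opt {a : ℤ} {h : ℕ} {x : ℤ} {A : List (ℤ × ℕ)} (hl : Loc a h x A) :
    Heap.Opt h (hp A) := by
  cases hl with
  | left h => exact Heap.Opt.one h
  | right h => exact Heap.Opt.one h
  | one => exact Heap.Opt.one 0
  | left2 h => exact Heap.Opt.two h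
  | right2 h => exact Heap.Opt.two h
  | mid b c => exact Heap.Opt.three b c

theorem Loc.cov {a : ℤ} {h : ℕ} {x : ℤ} {A : List (ℤ × ℕ)} (hl : Loc a h x A) (y : ℤ) :
    y ∈ Cov A ↔ (a ≤ y ∧ y < a + h) ∧ ¬ (x - 1 ≤ y ∧ y ≤ x + 1) := by
  cases hl with
  | mid b c => simp [Cov]; omega
  | _ => simp [Cov] <;> omega

theorem Loc.touch {a : ℤ} {h : ℕ} {x : ℤ} {A : List (ℤ × ℕ)} (hl : Loc a h x A) :
    ∃ y, (a ≤ y ∧ y < a + h) ∧ (x - 1 ≤ y ∧ y ≤ x + 1) := by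
  cases hl with
  | left h => exact ⟨a, by omega⟩
  | right h => exact ⟨a + h, by omega⟩
  | one => exact ⟨a, by omega⟩
  | left2 h => exact ⟨a, by omega⟩
  | right2 h => exact ⟨a + h, by omega⟩
  | mid b c => exact ⟨a + b, by omega⟩

theorem Loc.bdy {a : ℤ} {h : ℕ} {x : ℤ} {A : List (ℤ × ℕ)} (hl : Loc a h x A) {lo hi : ℤ}
    (hx : lo ≤ x ∧ x < hi) (hr : ∀ y, a ≤ y → y < a + h → lo ≤ y ∧ y < hi)
    (hb : 0 < h → lo < a ∨ a + h < hi) : ∀ p ∈ A, 0 < p.2 → lo < p.1 ∨ p.1 + p.2 < hi := by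
  have h1 : 0 < h → lo ≤ a ∧ a + h ≤ hi := by
    intro h0
    have h2 := hr a le_rfl (by omega)
    have h3 := hr (a + h - 1) (by omega) (by omega)
    omega
  cases hl with
  | mid b c =>
    intro p hp
    simp only [List.mem_cons, List.not_mem_nil, or_false] at hp
    have := h1 (by omega)
    push_cast at this
    rcases hp with rfl | rfl <;> simp only <;> omega
  | _ =>
    intro p hp
    simp only [List.mem_cons, List.not_mem_nil, or_false] at hp
    have := h1 (by omega)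
    push_cast at this
    subst hp
    simp only
    omega

theorem Loc.sep {a : ℤ} {h : ℕ} {x : ℤ} {A : List (ℤ × ℕ)} (hl : Loc a h x A) :
    A.Pairwise Sep := by
  cases hl with
  | mid b c =>
    simp only [List.pairwise_cons, List.mem_cons, List.not_mem_nil, or_false, forall_eq,
      List.Pairwise.nil, and_true, IsEmpty.forall_iff, implies_true]
    intro x y h1 h2 h3 h4
    simp only at h1 h2 h3 h4
    omega
  | _ => simp

theorem Loc.ex {a : ℤ} {h : ℕ} {x : ℤ}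
    (hy : ∃ y, (a ≤ y ∧ y < a + h) ∧ (x - 1 ≤ y ∧ y ≤ x + 1)) : ∃ A, Loc a h x A := by
  obtain ⟨y, ⟨h1, h2⟩, h3, h4⟩ := hy
  have h5 : a - 1 ≤ x ∧ x ≤ a + h := by omega
  rcases Nat.lt_or_ge h 1 with h6 | h6
  · omega
  obtain ⟨k, rfl⟩ : ∃ k, h = k + 1 := ⟨h - 1, by omega⟩
  push_cast at h5
  by_cases e1 : x = a - 1
  · subst e1; exact ⟨_, Loc.left k⟩
  by_cases e2 : x = a + (k + 1)
  · subst e2; exact ⟨_, Loc.right k⟩
  rcases Nat.eq_zero_or_pos k with e3 | e3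
  · subst e3
    have : x = a := by omega
    subst this
    exact ⟨_, Loc.one⟩
  obtain ⟨m, rfl⟩ : ∃ m, k = m + 1 := ⟨k - 1, by omega⟩
  by_cases e4 : x = a
  · subst e4; exact ⟨_, Loc.left2 m⟩
  by_cases e5 : x = a + (m + 1)
  · subst e5; exact ⟨_, Loc.right2 m⟩
  obtain ⟨b, hb⟩ : ∃ b : ℕ, (b : ℤ) = x - a - 1 := ⟨(x - a - 1).toNat, by omega⟩
  obtain ⟨c, hc⟩ : ∃ c : ℕ, (c : ℤ) = a + m - x := ⟨(a + m - x).toNat, by omega⟩
  have e6 : x = a + (b + 1) := by omega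
  have e7 : m + 1 + 1 = b + c + 3 := by
    push_cast at *
    omega
  rw [e6, e7]
  exact ⟨_, Loc.mid b c⟩

/-- every option is realised -/
theorem Loc.real {a : ℤ} {h : ℕ} {A' : Multiset ℕ} (ho : Heap.Opt h A') {lo hi : ℤ}
    (hr : ∀ y, a ≤ y → y < a + h → lo ≤ y ∧ y < hi)
    (hb : 0 < h → lo < a ∨ a + h < hi) : ∃ x A, lo ≤ x ∧ x < hi ∧ Loc a h x A ∧ hp A = A' := by
  have h1 : 0 < h → lo ≤ a ∧ a + h ≤ hi := by
    intro h0
    have h2 := hr a le_rfl (by omega)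
    have h3 := hr (a + h - 1) (by omega) (by omega)
    omega
  cases ho with
  | one k =>
    have h2 := hb (by omega)
    have h3 := h1 (by omega)
    push_cast at h2 h3
    rcases h2 with h2 | h2
    · exact ⟨_, _, by omega, by omega, Loc.left k, rfl⟩
    · exact ⟨_, _, by omega, by omega, Loc.right k, rfl⟩
  | two k =>
    have h3 := h1 (by omega)
    push_cast at h3
    exact ⟨_, _, by omega, by omega, Loc.left2 k, rfl⟩
  | three b c =>
    have h3 := h1 (by omega)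
    push_cast at h3
    exact ⟨_, _, by omega, by omega, Loc.mid b c, rfl⟩

/-- A move on an admissible list. -/
theorem Ok.step {lo hi a : ℤ} {h : ℕ} {L A : List (ℤ × ℕ)} {x : ℤ} (hL : Ok lo hi ((a, h) :: L))
    (hl : Loc a h x A) (hx : lo ≤ x ∧ x < hi) :
    Ok lo hi (A ++ L) ∧ Cov (A ++ L) = {y | y ∈ Cov ((a, h) :: L) ∧ ¬ (x - 1 ≤ y ∧ y ≤ x + 1)} := by
  have hsep := List.pairwise_cons.1 hL.sep
  have hcov : Cov (A ++ L) =
      {y | y ∈ Cov ((a, h) :: L) ∧ ¬ (x - 1 ≤ y ∧ y ≤ x + 1)} := by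
    ext y
    simp only [Set.mem_ofPred_eq]
    constructor
    · rintro ⟨p, hp, h1, h2⟩
      rcases List.mem_append.1 hp with hp | hp
      · have h3 := (hl.cov y).1 ⟨p, hp, h1, h2⟩
        exact ⟨⟨(a, h), by simp, h3.1⟩, h3.2⟩
      · refine ⟨⟨p, by simp [hp], h1, h2⟩, ?_⟩
        obtain ⟨z, ⟨h3, h4⟩, h5, h6⟩ := hl.touch
        have h7 := hsep.1 p hp z y h3 h4 h1 h2
        omega
    · rintro ⟨⟨p, hp, h1, h2⟩, h3⟩
      rcases List.mem_cons.1 hp with rfl | hp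
      · obtain ⟨q, hq, h4⟩ := (hl.cov y).2 ⟨⟨h1, h2⟩, h3⟩
        exact ⟨q, List.mem_append_left _ hq, h4⟩
      · exact ⟨p, List.mem_append_right _ hp, h1, h2⟩
  refine ⟨⟨?_, ?_, ?_⟩, hcov⟩
  · refine List.pairwise_append.2 ⟨hl.sep, hsep.2, ?_⟩
    intro p hp q hq y z h1 h2 h3 h4
    have h5 := (hl.cov y).1 ⟨p, hp, h1, h2⟩
    exact hsep.1 q hq y z h5.1.1 h5.1.2 h3 h4
  · intro p hp
    rcases List.mem_append.1 hp with hp | hp
    · refine hl.bdy hx ?_ ?_ p hp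
      · intro y h1 h2
        exact hL.rng y ⟨(a, h), by simp, h1, h2⟩
      · intro h0
        exact hL.bdy (a, h) (by simp) h0
    · exact hL.bdy p (by simp [hp])
  · intro y hy
    rw [hcov] at hy
    exact hL.rng y hy.1

/-- An unrolling of a part of a graph. -/
structure Board (G : SimpleGraph V) (e : ℤ → V) (lo hi : ℤ) (U₀ : Set ℤ) : Prop where
  inj : ∀ x ∈ U₀, ∀ y ∈ U₀, e x = e y → x = y
  adj : ∀ x, lo ≤ x → x < hi → ∀ y ∈ U₀, (e y ∈ nb G (e x) ↔ x - 1 ≤ y ∧ y ≤ x + 1)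
  cover : ∀ v, (∃ y ∈ U₀, e y ∈ nb G v) → ∃ x, lo ≤ x ∧ x < hi ∧ e x = v

theorem sum_append (A L : List (ℤ × ℕ)) : hp (A ++ L) = hp A + hp L := by
  simp [hp]

theorem hp_cons (a : ℤ) (h : ℕ) (L : List (ℤ × ℕ)) : hp ((a, h) :: L) = h ::ₘ hp L := by
  simp [hp]

theorem Mv.sum_lt {M M' : Multiset ℕ} (h : Heap.Mv M M') : M'.sum < M.sum := by
  obtain ⟨h, A, R, hA⟩ := h
  cases hA with
  | one h => simp
  | two h => simp
  | three a b => simp; omega

theorem not_P_zero {M : Multiset ℕ} (h : M.sum = 0) : ¬ Heap.P M := by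
  have hW : Heap.W M = 0 := by
    unfold Heap.W
    rw [Multiset.sum_eq_zero_iff]
    intro x hx
    obtain ⟨y, hy, rfl⟩ := Multiset.mem_map.1 hx
    have := Multiset.sum_eq_zero_iff.1 h y hy
    subst this
    exact Heap.w0
  unfold Heap.P
  omega

theorem Board.main [DecidableEq V] {e : ℤ → V} {lo hi : ℤ} {U₀ : Set ℤ} (hB : Board G e lo hi U₀) :
    ∀ (n : ℕ) (L : List (ℤ × ℕ)) (D : Finset V), (hp L).sum = n → Ok lo hi L → Cov L ⊆ U₀ →
      (∀ u, u ∉ D ↔ ∃ x ∈ Cov L, e x = u) → (Wins G D ↔ ¬ Heap.P (hp L)) := by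
  intro n
  induction n using Nat.strong_induction_on with
  | _ n ih =>
  intro L D hn hL hU hD
  -- legality
  have hleg : ∀ v, Legal G D v ↔ ∃ y ∈ Cov L, e y ∈ nb G v := by
    intro v
    unfold Legal
    rw [Finset.not_subset]
    constructor
    · rintro ⟨u, hu, huD⟩
      obtain ⟨y, hy, rfl⟩ := (hD u).1 huD
      exact ⟨y, hy, hu⟩
    · rintro ⟨y, hy, hyv⟩
      exact ⟨e y, hyv, (hD _).2 ⟨y, hy, rfl⟩⟩
  -- the effect of a move
  have hD' : ∀ x, lo ≤ x → x < hi → ∀ u, u ∉ D ∪ nb G (e x) ↔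
      ∃ y ∈ {y | y ∈ Cov L ∧ ¬ (x - 1 ≤ y ∧ y ≤ x + 1)}, e y = u := by
    intro x hx1 hx2 u
    rw [Finset.mem_union, not_or, hD]
    constructor
    · rintro ⟨⟨y, hy, rfl⟩, h2⟩
      exact ⟨y, ⟨hy, fun h => h2 ((hB.adj x hx1 hx2 y (hU hy)).2 h)⟩, rfl⟩
    · rintro ⟨y, ⟨hy, h2⟩, rfl⟩
      exact ⟨⟨y, hy, rfl⟩, fun h => h2 ((hB.adj x hx1 hx2 y (hU hy)).1 h)⟩
  have hstep : ∀ (a : ℤ) (h : ℕ) (L' A : List (ℤ × ℕ)) (x : ℤ), L.Perm ((a, h) :: L') →
      Loc a h x A → lo ≤ x → x < hi → Heap.Mv (hp L) (hp (A ++ L')) ∧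
      (Wins G (D ∪ nb G (e x)) ↔ ¬ Heap.P (hp (A ++ L'))) := by
    intro a h L' A x hperm hl hx1 hx2
    have hm : Heap.Mv (hp L) (hp (A ++ L')) := by
      rw [hp_perm hperm, hp_cons, sum_append]
      exact Heap.Mv.mk h (hp A) (hp L') hl.opt
    obtain ⟨h1, h2⟩ := (hL.perm hperm).step hl ⟨hx1, hx2⟩
    refine ⟨hm, ih _ (hn ▸ Mv.sum_lt hm) _ _ rfl h1 ?_ ?_⟩
    · rw [h2]
      rintro y ⟨hy, -⟩
      rw [← cov_perm hperm] at hy
      exact hU hy
    · intro u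
      rw [hD' x hx1 hx2 u, h2, cov_perm hperm]
  -- every legal move is a heap move
  have hfwd : ∀ v, Legal G D v → ∃ M', Heap.Mv (hp L) M' ∧
      (Wins G (D ∪ nb G v) ↔ ¬ Heap.P M') := by
    intro v hv
    obtain ⟨y, hy, hyv⟩ := (hleg v).1 hv
    obtain ⟨x, hx1, hx2, rfl⟩ := hB.cover v ⟨y, hU hy, hyv⟩
    have hxy := (hB.adj x hx1 hx2 y (hU hy)).1 hyv
    obtain ⟨⟨a, h⟩, hp', h1, h2⟩ := hy
    obtain ⟨A, hA⟩ := Loc.ex (a := a) (h := h) (x := x) ⟨y, ⟨h1, h2⟩, hxy⟩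
    obtain ⟨h3, h4⟩ := hstep a h (L.erase (a, h)) A x (List.perm_cons_erase hp') hA hx1 hx2
    exact ⟨_, h3, h4⟩
  have hbwd : ∀ M', Heap.Mv (hp L) M' → ∃ v, Legal G D v ∧ (Wins G (D ∪ nb G v) ↔ ¬ Heap.P M') := by
    intro M' hM'
    generalize hM : hp L = M at hM'
    obtain ⟨h, A', R, hA'⟩ := hM'
    have hmem : h ∈ hp L := by rw [hM]; simp
    obtain ⟨⟨a, h'⟩, hp', rfl⟩ : ∃ p ∈ L, p.2 = h := by
      simpa [hp] using hmem
    simp only at hM hA' hmem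
    have hperm := List.perm_cons_erase hp'
    have hR : hp (L.erase (a, h')) = R := by
      have h1 := hp_perm hperm
      rw [hM, hp_cons] at h1
      exact ((Multiset.cons_inj_right _).1 h1).symm
    obtain ⟨x, A, hx1, hx2, hl, hA⟩ := Loc.real hA' (a := a) (lo := lo) (hi := hi)
      (fun y h1 h2 => hL.rng y ⟨(a, h'), hp', h1, h2⟩) (fun h0 => hL.bdy (a, h') hp' h0)
    obtain ⟨h3, h4⟩ := hstep a h' (L.erase (a, h')) A x hperm hl hx1 hx2
    refine ⟨e x, ?_, ?_⟩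
    · rw [hleg]
      obtain ⟨y, hy1, hy2⟩ := hl.touch
      have hy : y ∈ Cov L := ⟨(a, h'), hp', hy1⟩
      exact ⟨y, hy, (hB.adj x hx1 hx2 y (hU hy)).2 hy2⟩
    · rw [h4, sum_append, hA, hR]
  rw [wins_iff]
  rcases Nat.eq_zero_or_pos (hp L).sum with h0 | h0
  · -- no move
    refine iff_of_true (Or.inl fun v hv => ?_) (not_P_zero h0)
    obtain ⟨M', hM', -⟩ := hfwd v hv
    have := Mv.sum_lt hM'
    omega
  · constructor
    · rintro (h | ⟨v, hv, hw⟩)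
      · exfalso
        obtain ⟨g, R, hg, hg0⟩ := Heap.pickPos h0
        obtain ⟨k, rfl⟩ : ∃ k, g = k + 1 := ⟨g - 1, by omega⟩
        obtain ⟨v, hv, -⟩ := hbwd ({k} + R) (by rw [hg]; exact Heap.Mv.mk _ _ _ (Heap.Opt.one k))
        exact h v hv
      · obtain ⟨M', hM', hiff⟩ := hfwd v hv
        rw [hiff, not_not] at hw
        exact fun hP => hP.move hM' hw
    · intro hP
      obtain ⟨M', hM', hPM'⟩ := Heap.good_of_not_P h0 hP
      obtain ⟨v, hv, hiff⟩ := hbwd M' hM'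
      exact Or.inr ⟨v, hv, by rw [hiff]; exact not_not.2 hPM'⟩

end Pool.Agent.R538.Dom
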