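import Pool.Agent.R538.Dom

/-!
# The misère domination game on paths and cycles
-/

namespace Pool.Agent.R538.Dom

open SimpleGraph

/-! ### Numerical part -/

theorem P_single (k : ℕ) : Heap.P {k} ↔ k = 1 ∨ k = 5 ∨ (10 ≤ k ∧ k % 4 = 2) := by
  unfold Heap.P
  simp only [Heap.W_single, Heap.S_single, Multiset.sum_singleton]
  unfold Heap.w Heap.s
  split_ifs <;> first | omega | (simp; omega)

theorem P_pair (a b : ℕ) : Heap.P {a, b} ↔
    (Heap.w a + Heap.w b = 0 ∧ (a + b) % 2 = 1) ∨ (0 < Heap.w a + Heap.w b ∧ (a + b) % 2 = 0 ∧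
      (Heap.w a + Heap.w b ≤ max (Heap.s a) (Heap.s b) ↔ (Heap.w a + Heap.w b) % 2 = 1)) := by
  unfold Heap.P
  simp only [Heap.W_pair, Heap.S_pair]
  have : ({a, b} : Multiset ℕ).sum = a + b := by simp
  rw [this]

theorem path_num (n : ℕ) (hn : 1 ≤ n) :
    ((n = 1 ∧ Heap.P {0}) ∨ (2 ≤ n ∧ Heap.P {n - 2}) ∨
      ∃ b c, b + c + 3 = n ∧ Heap.P {b, c}) ↔
    (n ≠ 1 ∧ n ≠ 2 ∧ n ≠ 5 ∧ n ≠ 6 ∧ ¬ (10 ≤ n ∧ n % 4 = 2)) := by
  constructor
  · rintro (⟨h1, h2⟩ | ⟨h1, h2⟩ | ⟨b, c, h1, h2⟩)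
    · rw [P_single] at h2; omega
    · rw [P_single] at h2; omega
    · rw [P_pair] at h2
      rcases h2 with ⟨h2, h3⟩ | ⟨h2, h3, h4⟩
      · have h4 := Heap.w_zero (h := b) (by omega)
        have h5 := Heap.w_zero (h := c) (by omega)
        omega
      · refine ⟨by omega, by omega, ?_, by omega, by omega⟩
        rintro rfl
        have : b = 0 ∨ b = 1 ∨ b = 2 := by omega
        rcases this with rfl | rfl | rfl
        · obtain rfl : c = 2 := by omega
          simp [Heap.w, Heap.s] at h4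
        · obtain rfl : c = 1 := by omega
          simp [Heap.w] at h2
        · obtain rfl : c = 0 := by omega
          simp [Heap.w, Heap.s] at h4
  · intro h
    by_cases hp : 2 ≤ n ∧ Heap.P {n - 2}
    · exact Or.inr (Or.inl hp)
    right; right
    rw [P_single] at hp
    rcases Nat.lt_or_ge n 16 with h16 | h16
    · have h0 : n = 4 ∨ n = 8 ∨ n = 9 ∨ n = 11 ∨ n = 13 ∨ n = 15 := by omega
      rcases h0 with rfl | rfl | rfl | rfl | rfl | rfl
      · exact ⟨0, 1, rfl, by rw [P_pair]; left; simp [Heap.w]⟩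
      · exact ⟨0, 5, rfl, by rw [P_pair]; left; simp [Heap.w]⟩
      · exact ⟨3, 3, rfl, by rw [P_pair]; right; simp [Heap.w, Heap.s]⟩
      · exact ⟨2, 6, rfl, by rw [P_pair]; right; simp [Heap.w, Heap.s]⟩
      · exact ⟨0, 10, rfl, by rw [P_pair]; right; simp [Heap.w, Heap.s]⟩
      · exact ⟨6, 6, rfl, by rw [P_pair]; right; simp [Heap.w, Heap.s]⟩
    · rcases (by omega : n % 4 = 1 ∨ n % 4 = 3) with h4 | h4
      · refine ⟨0, n - 3, by omega, ?_⟩
        rw [P_pair, Heap.w0, Heap.s0, Heap.w_big (by omega), Heap.s_even_big (by omega) (by omega)]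
        right
        omega
      · refine ⟨1, n - 4, by omega, ?_⟩
        have w1 : Heap.w 1 = 0 := by simp [Heap.w]
        have s1 : Heap.s 1 = 0 := by simp [Heap.s]
        rw [P_pair, w1, s1, Heap.w_big (by omega), Heap.s_odd_big (by omega) (by omega)]
        right
        omega

/-! ### Paths -/

/-- the path as a board -/
def pathE (n : ℕ) (hn : 1 ≤ n) (x : ℤ) : Fin n :=
  if h : x.toNat < n then ⟨x.toNat, h⟩ else ⟨0, hn⟩

theorem pathE_val {n : ℕ} (hn : 1 ≤ n) {x : ℤ} (h0 : 0 ≤ x) (h1 : x < n) :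
    ((pathE n hn x).val : ℤ) = x := by
  unfold pathE
  rw [dif_pos (by omega)]
  simp only
  omega

theorem pathBoard (n : ℕ) (hn : 1 ≤ n) :
    Board (pathGraph n) (pathE n hn) 0 n {x | 0 ≤ x ∧ x < n} := by
  refine ⟨?_, ?_, ?_⟩
  · rintro x ⟨hx1, hx2⟩ y ⟨hy1, hy2⟩ h
    rw [← pathE_val hn hx1 hx2, ← pathE_val hn hy1 hy2, h]
  · rintro x hx1 hx2 y ⟨hy1, hy2⟩
    rw [mem_nb, pathGraph_adj, Fin.ext_iff]
    have h1 := pathE_val hn hx1 hx2
    have h2 := pathE_val hn hy1 hy2
    omega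
  · rintro v -
    refine ⟨v.val, by omega, by omega, ?_⟩
    rw [Fin.ext_iff]
    have := pathE_val hn (x := (v.val : ℤ)) (by omega) (by omega)
    omega

theorem cov_Loc_sub {a : ℤ} {h : ℕ} {x : ℤ} {A : List (ℤ × ℕ)} (hl : Loc a h x A) :
    Cov A ⊆ {y | a ≤ y ∧ y < a + h} := fun y hy => ((hl.cov y).1 hy).1

theorem wins_path (n : ℕ) (hn : 1 ≤ n) : Wins (pathGraph n) ∅ ↔
    (n ≠ 1 ∧ n ≠ 2 ∧ n ≠ 5 ∧ n ≠ 6 ∧ ¬ (10 ≤ n ∧ n % 4 = 2)) := by
  rw [← path_num n hn, wins_iff]
  have hB := pathBoard n hn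
  -- the first move
  have hfirst : ∀ (x : ℤ) (A : List (ℤ × ℕ)), 0 ≤ x → x < n → Loc 0 n x A →
      (Wins (pathGraph n) (∅ ∪ nb (pathGraph n) (pathE n hn x)) ↔ ¬ Heap.P (hp A)) := by
    intro x A hx1 hx2 hl
    refine hB.main _ A _ rfl ⟨hl.sep, ?_, ?_⟩ ?_ ?_
    · intro p hp h0
      cases hl with
      | left h => omega
      | right h => push_cast at hx2; omega
      | one =>
        simp only [List.mem_cons, List.not_mem_nil, or_false] at hp
        subst hp
        simp at h0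
      | left2 h =>
        simp only [List.mem_cons, List.not_mem_nil, or_false] at hp
        subst hp
        left
        simp
      | right2 h =>
        simp only [List.mem_cons, List.not_mem_nil, or_false] at hp
        subst hp
        right
        push_cast
        omega
      | mid b c =>
        simp only [List.mem_cons, List.not_mem_nil, or_false] at hp
        rcases hp with rfl | rfl
        · right
          push_cast
          omega
        · left
          simp only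
          omega
    · intro y hy
      have := cov_Loc_sub hl hy
      simp only [Set.mem_ofPred_eq] at this
      omega
    · intro y hy
      have := cov_Loc_sub hl hy
      simp only [Set.mem_ofPred_eq] at this ⊢
      omega
    · intro u
      rw [Finset.empty_union]
      constructor
      · intro hu
        obtain ⟨y, hy⟩ : ∃ y : ℤ, y = u.val := ⟨_, rfl⟩
        have hyu : pathE n hn y = u := by
          rw [Fin.ext_iff]
          have := pathE_val hn (x := y) (by omega) (by omega)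
          omega
        refine ⟨y, ?_, hyu⟩
        rw [hl.cov]
        refine ⟨by omega, fun h => hu ?_⟩
        rw [← hyu]
        exact (hB.adj x hx1 hx2 y (by simp only [Set.mem_ofPred_eq]; omega)).2 h
      · rintro ⟨y, hy, rfl⟩ h
        have h1 := (hl.cov y).1 hy
        exact h1.2 ((hB.adj x hx1 hx2 y (by simp only [Set.mem_ofPred_eq]; omega)).1 h)
  have hlegal : ∀ v, Legal (pathGraph n) ∅ v := by
    intro v h
    have := h (mem_nb.2 (Or.inl rfl) : v ∈ nb (pathGraph n) v)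
    simp at this
  have hex : (∃ v, Legal (pathGraph n) ∅ v ∧
      ¬ Wins (pathGraph n) (∅ ∪ nb (pathGraph n) v)) ↔
      ∃ x A, 0 ≤ x ∧ x < (n : ℤ) ∧ Loc 0 n x A ∧ Heap.P (hp A) := by
    constructor
    · rintro ⟨v, -, hv⟩
      obtain ⟨x, hx⟩ : ∃ x : ℤ, x = v.val := ⟨_, rfl⟩
      have hxv : pathE n hn x = v := by
        rw [Fin.ext_iff]
        have := pathE_val hn (x := x) (by omega) (by omega)
        omega
      obtain ⟨A, hA⟩ := Loc.ex (a := 0) (h := n) (x := x) ⟨x, by omega⟩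
      refine ⟨x, A, by omega, by omega, hA, ?_⟩
      rw [← hxv, hfirst x A (by omega) (by omega) hA, not_not] at hv
      exact hv
    · rintro ⟨x, A, h1, h2, h3, h4⟩
      refine ⟨pathE n hn x, hlegal _, ?_⟩
      rw [hfirst x A h1 h2 h3]
      exact not_not.2 h4
  rw [hex]
  have hno : ¬ ∀ v, ¬ Legal (pathGraph n) ∅ v := fun h => h ⟨0, hn⟩ (hlegal _)
  rw [or_iff_right hno]
  constructor
  · rintro ⟨x, A, h1, h2, h3, h4⟩
    generalize hm : n = m at h3
    cases h3 with
    | left h => omega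
    | right h => subst hm; push_cast at h2; omega
    | one => left; subst hm; exact ⟨rfl, h4⟩
    | left2 h => right; left; subst hm; exact ⟨by omega, h4⟩
    | right2 h => right; left; subst hm; exact ⟨by omega, h4⟩
    | mid b c => right; right; subst hm; exact ⟨b, c, rfl, h4⟩
  · rintro (⟨h1, h2⟩ | ⟨h1, h2⟩ | ⟨b, c, h1, h2⟩)
    · subst h1; exact ⟨0, _, by omega, by omega, Loc.one, h2⟩
    · obtain ⟨k, rfl⟩ : ∃ k, n = k + 2 := ⟨n - 2, by omega⟩
      exact ⟨0, _, by omega, by omega, Loc.left2 k, h2⟩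
    · subst h1
      exact ⟨0 + (b + 1), _, by omega, by push_cast; omega, Loc.mid b c, h2⟩

/-! ### Cycles -/

/-- the cycle as a board, when the first move is `v` -/
def cycE (m : ℕ) (v : Fin (m + 3)) (x : ℤ) : Fin (m + 3) :=
  (show ZMod (m + 3) from v) + ((x + 2 : ℤ) : ZMod (m + 3))

theorem cycE_sub (m : ℕ) (v : Fin (m + 3)) (x y : ℤ) :
    cycE m v x - cycE m v y = (((x - y : ℤ) : ZMod (m + 3)) : Fin (m + 3)) := by
  have key : ∀ a : ZMod (m + 3), (a + ((x + 2 : ℤ) : ZMod (m + 3))) -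
      (a + ((y + 2 : ℤ) : ZMod (m + 3))) = ((x - y : ℤ) : ZMod (m + 3)) := by
    intro a
    push_cast
    ring
  exact key v

theorem cyc_one (m : ℕ) (z : ℤ) : ((z : ZMod (m + 3)) : Fin (m + 3)) = 1 ↔
    ((m + 3 : ℕ) : ℤ) ∣ z - 1 := by
  rw [← ZMod.intCast_zmod_eq_zero_iff_dvd, Int.cast_sub, sub_eq_zero, Int.cast_one]

theorem cyc_zero (m : ℕ) (z : ℤ) : ((z : ZMod (m + 3)) : Fin (m + 3)) = 0 ↔
    ((m + 3 : ℕ) : ℤ) ∣ z := by
  rw [← ZMod.intCast_zmod_eq_zero_iff_dvd]

theorem cyc_eq (m : ℕ) (v : Fin (m + 3)) (x y : ℤ) :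
    cycE m v x = cycE m v y ↔ ((m + 3 : ℕ) : ℤ) ∣ x - y := by
  rw [← sub_eq_zero, cycE_sub]
  exact cyc_zero m _

theorem small_dvd {N z : ℤ} (h1 : -N < z) (h2 : z < N) : N ∣ z ↔ z = 0 := by
  constructor
  · intro h
    exact Int.eq_zero_of_abs_lt_dvd h (abs_lt.2 ⟨h1, h2⟩)
  · rintro rfl
    exact dvd_zero _

theorem cyc_nb (m : ℕ) (v : Fin (m + 3)) (x y : ℤ) :
    cycE m v y ∈ nb (cycleGraph (m + 3)) (cycE m v x) ↔
      (((m + 3 : ℕ) : ℤ) ∣ y - x ∨ ((m + 3 : ℕ) : ℤ) ∣ x - y - 1 ∨ ((m + 3 : ℕ) : ℤ) ∣ y - x - 1) := by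
  rw [mem_nb, cycleGraph_adj, cycE_sub, cycE_sub]
  exact or_congr (cyc_eq _ _ _ _) (or_congr (cyc_one _ _) (cyc_one _ _))

theorem cyc_surj (m : ℕ) (v u : Fin (m + 3)) : ∃ x : ℤ, -1 ≤ x ∧ x < ((m + 3 : ℕ) : ℤ) - 1 ∧
    cycE m v x = u := by
  let z : ZMod (m + 3) := u - v
  refine ⟨((z.val : ℤ) - 2 + 1) % ((m + 3 : ℕ) : ℤ) - 1, ?_, ?_, ?_⟩
  · have := Int.emod_nonneg ((z.val : ℤ) - 2 + 1) (b := ((m + 3 : ℕ) : ℤ)) (by omega)
    omega
  · have := Int.emod_lt_of_pos ((z.val : ℤ) - 2 + 1) (b := ((m + 3 : ℕ) : ℤ)) (by omega)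
    omega
  · unfold cycE
    have h1 : (((((z.val : ℤ) - 2 + 1) % ((m + 3 : ℕ) : ℤ) - 1 + 2 : ℤ)) : ZMod (m + 3)) = z := by
      rw [Int.cast_add, Int.cast_sub, ZMod.intCast_mod]
      push_cast
      rw [ZMod.natCast_zmod_val]
      ring
    rw [h1]
    have : ∀ a b : ZMod (m + 3), a + (b - a) = b := by intro a b; ring
    exact this v u

theorem cycBoard (m : ℕ) (v : Fin (m + 3)) :
    Board (cycleGraph (m + 3)) (cycE m v) (-1) (m + 1) {x | 0 ≤ x ∧ x < m} := by
  refine ⟨?_, ?_, ?_⟩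
  · rintro x ⟨hx1, hx2⟩ y ⟨hy1, hy2⟩ h
    rw [cyc_eq, small_dvd (by push_cast; omega) (by push_cast; omega)] at h
    omega
  · rintro x hx1 hx2 y ⟨hy1, hy2⟩
    rw [cyc_nb, small_dvd (by push_cast; omega) (by push_cast; omega),
      small_dvd (by push_cast; omega) (by push_cast; omega),
      small_dvd (by push_cast; omega) (by push_cast; omega)]
    omega
  · rintro w ⟨y, ⟨hy1, hy2⟩, hy⟩
    obtain ⟨x, hx1, hx2, rfl⟩ := cyc_surj m v w
    push_cast at hx2
    refine ⟨x, hx1, ?_, rfl⟩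
    by_contra hcon
    have hx : x = m + 1 := by omega
    subst hx
    rw [cyc_nb, small_dvd (by push_cast; omega) (by push_cast; omega),
      small_dvd (by push_cast; omega) (by push_cast; omega),
      small_dvd (by push_cast; omega) (by push_cast; omega)] at hy
    omega

theorem wins_cycle (n : ℕ) (hn : 3 ≤ n) : Wins (cycleGraph n) ∅ ↔
    (n = 4 ∨ n = 8 ∨ (13 ≤ n ∧ n % 4 = 1)) := by
  obtain ⟨m, rfl⟩ : ∃ m, n = m + 3 := ⟨n - 3, by omega⟩
  rw [wins_iff]
  have hlegal : ∀ v, Legal (cycleGraph (m + 3)) ∅ v := by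
    intro v h
    have := h (mem_nb.2 (Or.inl rfl) : v ∈ nb (cycleGraph (m + 3)) v)
    simp at this
  have hno : ¬ ∀ v, ¬ Legal (cycleGraph (m + 3)) ∅ v := fun h => h 0 (hlegal _)
  rw [or_iff_right hno]
  have hfirst : ∀ v : Fin (m + 3), Wins (cycleGraph (m + 3)) (∅ ∪ nb (cycleGraph (m + 3)) v) ↔
      ¬ Heap.P {m} := by
    intro v
    have hv : v = cycE m v (-2) := by
      unfold cycE
      have : ∀ a : ZMod (m + 3), a + ((-2 + 2 : ℤ) : ZMod (m + 3)) = a := by intro a; simp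
      exact (this v).symm
    refine (cycBoard m v).main _ [(0, m)] _ rfl ⟨by simp, ?_, ?_⟩ ?_ ?_
    · intro p hp h0
      simp only [List.mem_cons, List.not_mem_nil, or_false] at hp
      subst hp
      left
      simp
    · rintro x ⟨p, hp, h1, h2⟩
      simp only [List.mem_cons, List.not_mem_nil, or_false] at hp
      subst hp
      simp only at h1 h2
      omega
    · rintro x ⟨p, hp, h1, h2⟩
      simp only [List.mem_cons, List.not_mem_nil, or_false] at hp
      subst hp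
      simp only at h1 h2
      simp only [Set.mem_ofPred_eq]
      omega
    · intro u
      rw [Finset.empty_union]
      obtain ⟨x, hx1, hx2, rfl⟩ := cyc_surj m v u
      push_cast at hx2
      have key : cycE m v x ∈ nb (cycleGraph (m + 3)) v ↔ x = -1 ∨ m ≤ x := by
        conv_lhs => rw [hv]
        have hc : cycE m (cycE m v (-2)) x = cycE m v x := by rw [← hv]
        have h1 : (cycE m (cycE m v (-2)) x ∈ nb (cycleGraph (m + 3)) (cycE m v (-2))) ↔
            (cycE m v x ∈ nb (cycleGraph (m + 3)) (cycE m v (-2))) := by rw [hc]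
        rw [h1, cyc_nb]
        have e1 : ((m + 3 : ℕ) : ℤ) ∣ x - (-2) ↔ x = m + 1 := by
          rw [← dvd_sub_self_right, small_dvd (by push_cast; omega) (by push_cast; omega)]
          push_cast
          omega
        have e2 : ((m + 3 : ℕ) : ℤ) ∣ -2 - x - 1 ↔ x = m := by
          rw [← dvd_add_self_right, small_dvd (by push_cast; omega) (by push_cast; omega)]
          push_cast
          omega
        have e3 : ((m + 3 : ℕ) : ℤ) ∣ x - (-2) - 1 ↔ x = -1 := by
          rw [small_dvd (by push_cast; omega) (by push_cast; omega)]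
          omega
        rw [e1, e2, e3]
        omega
      rw [key]
      constructor
      · intro h
        refine ⟨x, ⟨(0, m), by simp, by simp only; omega, by simp only; omega⟩, rfl⟩
      · rintro ⟨y, ⟨p, hp, h1, h2⟩, h3⟩
        simp only [List.mem_cons, List.not_mem_nil, or_false] at hp
        subst hp
        simp only at h1 h2
        rw [cyc_eq, small_dvd (by push_cast; omega) (by push_cast; omega)] at h3
        omega
  have h2 : (∃ v, Legal (cycleGraph (m + 3)) ∅ v ∧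
      ¬ Wins (cycleGraph (m + 3)) (∅ ∪ nb (cycleGraph (m + 3)) v)) ↔ Heap.P {m} := by
    constructor
    · rintro ⟨v, -, hv⟩
      rw [hfirst, not_not] at hv
      exact hv
    · intro h
      exact ⟨0, hlegal _, by rw [hfirst]; exact not_not.2 h⟩
  rw [h2, P_single]
  omega

end Pool.Agent.R538.Dom
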