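import Pool.Agent.R538.Dom2
import Pool.Agent.NPC.Dec
import Pool.Agent.H656R2.AK.Defs

/-!
# The algorithm
-/

namespace Pool.Agent.R538.Dom

open SimpleGraph (pathGraph cycleGraph pathGraph_adj cycleGraph_adj)
open Pool.Agent.NPC Pool.Agent.H656R2.AK

variable {V V' : Type} [Fintype V] [Fintype V'] {G : SimpleGraph V} {H : SimpleGraph V'}

theorem nb_iso (φ : G ≃g H) (u v : V) : φ u ∈ nb H (φ v) ↔ u ∈ nb G v := by
  rw [mem_nb, mem_nb, φ.map_adj_iff, EmbeddingLike.apply_eq_iff_eq]

theorem wins_iso [DecidableEq V] [DecidableEq V'] (φ : G ≃g H) : ∀ (n : ℕ) (D : Finset V) (D' : Finset V'),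
    (Finset.univ \ D).card = n → (∀ u, φ u ∈ D' ↔ u ∈ D) → (Wins G D ↔ Wins H D') := by
  intro n
  induction n using Nat.strong_induction_on with
  | _ n ih =>
  intro D D' hn hD
  have hleg : ∀ v, Legal H D' (φ v) ↔ Legal G D v := by
    intro v
    unfold Legal
    rw [not_iff_not]
    constructor
    · intro h u hu
      exact (hD u).1 (h ((nb_iso φ u v).2 hu))
    · intro h u' hu'
      obtain ⟨u, rfl⟩ := φ.surjective u'
      exact (hD u).2 (h ((nb_iso φ u v).1 hu'))
  have hstep : ∀ v, Legal G D v → (Wins G (D ∪ nb G v) ↔ Wins H (D' ∪ nb H (φ v))) := by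
    intro v hv
    refine ih _ ?_ _ _ rfl ?_
    · rw [← hn]
      obtain ⟨u, hu, huD⟩ := Finset.not_subset.1 hv
      apply Finset.card_lt_card
      refine Finset.ssubset_iff_subset_ne.2 ⟨?_, ?_⟩
      · intro x hx
        simp only [Finset.mem_sdiff, Finset.mem_univ, true_and, Finset.mem_union, not_or] at hx ⊢
        exact hx.1
      · intro h
        have h1 : u ∈ Finset.univ \ D := by simp [huD]
        rw [← h] at h1
        simp [hu] at h1
    · intro u
      rw [Finset.mem_union, Finset.mem_union, hD, nb_iso]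
  rw [wins_iff, wins_iff]
  constructor
  · rintro (h | ⟨v, hv, hw⟩)
    · left
      intro v'
      obtain ⟨v, rfl⟩ := φ.surjective v'
      rw [hleg]
      exact h v
    · exact Or.inr ⟨φ v, (hleg v).2 hv, by rwa [← hstep v hv]⟩
  · rintro (h | ⟨v', hv, hw⟩)
    · left
      intro v
      rw [← hleg]
      exact h _
    · obtain ⟨v, rfl⟩ := φ.surjective v'
      rw [hleg] at hv
      exact Or.inr ⟨v, hv, by rwa [hstep v hv]⟩

/-- the decision -/
def dec (A : List (List Bool)) : Bool :=
  if (A.any fun row => decide ((row.filter fun b => b).length ≤ 1)) then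
    decide (A.length ≠ 1 ∧ A.length ≠ 2 ∧ A.length ≠ 5 ∧ A.length ≠ 6 ∧
      ¬ (10 ≤ A.length ∧ A.length % 4 = 2))
  else decide (A.length = 4 ∨ A.length = 8 ∨ (13 ≤ A.length ∧ A.length % 4 = 1))

theorem dec_poly : Poly dec := by
  have hlen : Poly (fun A : List (List Bool) => A.length) := Poly.length Poly.id
  unfold dec
  refine Poly.ite ?_ ?_ ?_
  · refine Poly.decide_bool (Poly.any Poly.id ?_)
    refine Poly.decide_le (Poly.length ?_) (NPC.Poly.const (1 : ℕ))
    exact Poly.filter (l := fun p : List (List Bool) × List Bool => p.2) (p := fun _ b => b)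
      (Poly.snd Poly.id) (Poly.snd Poly.id)
  · refine Poly.decide_and (Poly.decide_not (Poly.decide_eq hlen (NPC.Poly.const (1 : ℕ))))
      (Poly.decide_and (Poly.decide_not (Poly.decide_eq hlen (NPC.Poly.const (2 : ℕ))))
        (Poly.decide_and (Poly.decide_not (Poly.decide_eq hlen (NPC.Poly.const (5 : ℕ))))
          (Poly.decide_and (Poly.decide_not (Poly.decide_eq hlen (NPC.Poly.const (6 : ℕ))))
            (Poly.decide_not (Poly.decide_and (Poly.decide_le (NPC.Poly.const (10 : ℕ)) hlen)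
              (Poly.decide_eq (Poly.mod hlen (NPC.Poly.const (4 : ℕ))) (NPC.Poly.const (2 : ℕ))))))))
  · exact Poly.decide_or (Poly.decide_eq hlen (NPC.Poly.const (4 : ℕ)))
      (Poly.decide_or (Poly.decide_eq hlen (NPC.Poly.const (8 : ℕ)))
        (Poly.decide_and (Poly.decide_le (NPC.Poly.const (13 : ℕ)) hlen)
          (Poly.decide_eq (Poly.mod hlen (NPC.Poly.const (4 : ℕ))) (NPC.Poly.const (1 : ℕ)))))

theorem row_card {n : ℕ} (G : SimpleGraph (Fin n)) [DecidableRel G.Adj] (v : Fin n) :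
    ((List.ofFn fun j => decide (G.Adj v j)).filter fun b => b).length =
      (Finset.univ.filter fun j => G.Adj v j).card := by
  rw [List.ofFn_eq_map, List.filter_map, List.length_map]
  have : (Finset.univ.filter fun j => G.Adj v j).card =
      ((List.finRange n).filter fun j => decide (G.Adj v j)).length := by
    rw [Finset.card_def, Finset.filter_val]
    show (Multiset.filter _ (Finset.univ : Finset (Fin n)).val).card = _
    have h1 : (Finset.univ : Finset (Fin n)).val = ((List.finRange n : List (Fin n)) :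
        Multiset (Fin n)) := rfl
    rw [h1, Multiset.filter_coe, Multiset.coe_card]
  rw [this]
  rfl

theorem dec_any {n : ℕ} (G : SimpleGraph (Fin n)) :
    ((adjMatrix G).any fun row => decide ((row.filter fun b => b).length ≤ 1)) = true ↔
      ∃ v, ∀ u w, G.Adj v u → G.Adj v w → u = w := by
  classical
  rw [List.any_eq_true]
  constructor
  · rintro ⟨row, hrow, h⟩
    unfold adjMatrix at hrow
    obtain ⟨v, rfl⟩ := (List.mem_ofFn' _ _).1 hrow
    refine ⟨v, ?_⟩
    simp only [decide_eq_true_eq] at h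
    intro u w hu hw
    have h1 := row_card G v
    have h2 : (Finset.univ.filter fun j => G.Adj v j).card ≤ 1 := by
      rw [← h1]
      convert h using 3
    exact Finset.card_le_one.1 h2 u (by simpa using hu) w (by simpa using hw)
  · rintro ⟨v, hv⟩
    refine ⟨List.ofFn fun j => decide (G.Adj v j), ?_, ?_⟩
    · unfold adjMatrix
      rw [List.mem_ofFn']
      refine ⟨v, ?_⟩
      congr!
    · rw [decide_eq_true_eq, row_card]
      refine Finset.card_le_one.2 fun u hu w hw => ?_
      exact hv u w (by simpa using hu) (by simpa using hw)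

theorem any_path {n : ℕ} (hn : 1 ≤ n) {G : SimpleGraph (Fin n)} (φ : G ≃g pathGraph n) :
    ∃ v, ∀ u w, G.Adj v u → G.Adj v w → u = w := by
  refine ⟨φ.symm ⟨0, hn⟩, fun u w hu hw => ?_⟩
  rw [← φ.map_adj_iff, φ.apply_symm_apply, pathGraph_adj] at hu hw
  simp only at hu hw
  apply φ.injective
  apply Fin.ext
  omega

theorem any_cycle {n : ℕ} (hn : 3 ≤ n) {G : SimpleGraph (Fin n)} (φ : G ≃g cycleGraph n) :
    ¬ ∃ v, ∀ u w, G.Adj v u → G.Adj v w → u = w := by
  obtain ⟨m, rfl⟩ : ∃ m, n = m + 3 := ⟨n - 3, by omega⟩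
  rintro ⟨v, hv⟩
  have h1 : G.Adj v (φ.symm (φ v + 1)) := by
    rw [← φ.map_adj_iff, φ.apply_symm_apply, cycleGraph_adj]
    right
    exact add_sub_cancel_left _ _
  have h2 : G.Adj v (φ.symm (φ v - 1)) := by
    rw [← φ.map_adj_iff, φ.apply_symm_apply, cycleGraph_adj]
    left
    exact sub_sub_cancel _ _
  have h3 := φ.symm.injective (hv _ _ h1 h2)
  rw [eq_sub_iff_add_eq, add_assoc, add_eq_left] at h3
  have h4 : ((1 : Fin (m + 3)) + 1).val = 2 := by
    rw [Fin.val_add, Fin.val_one]
    exact Nat.mod_eq_of_lt (by omega)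
  rw [h3] at h4
  simp at h4

theorem dec_spec {n : ℕ} (G : SimpleGraph (Fin n))
    (h : (1 ≤ n ∧ Nonempty (G ≃g pathGraph n)) ∨ (3 ≤ n ∧ Nonempty (G ≃g cycleGraph n))) :
    dec (adjMatrix G) = true ↔ Wins G ∅ := by
  have hlen : (adjMatrix G).length = n := by simp [adjMatrix]
  unfold dec
  rw [hlen]
  rcases h with ⟨hn, ⟨φ⟩⟩ | ⟨hn, ⟨φ⟩⟩
  · rw [if_pos ((dec_any G).2 (any_path hn φ)), decide_eq_true_eq, ← wins_path n hn]
    exact (wins_iso φ _ ∅ ∅ rfl (by simp)).symm
  · rw [if_neg (fun h => any_cycle hn φ ((dec_any G).1 h)), decide_eq_true_eq, ← wins_cycle n hn]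
    exact (wins_iso φ _ ∅ ∅ rfl (by simp)).symm

end Pool.Agent.R538.Dom
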