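import Mathlib

/-!
# The misère outcomes of the octal game 0.337

Heaps of tokens; a move replaces a heap `h` by `h - 1`, by `h - 2`, or by two heaps `a`, `b` with
`a + b = h - 3`. The player who has no move wins.
-/

namespace Pool.Agent.R538.Heap

/-- The moves of one heap. -/
inductive Opt : ℕ → Multiset ℕ → Prop
  | one (h : ℕ) : Opt (h + 1) {h}
  | two (h : ℕ) : Opt (h + 2) {h}
  | three (a b : ℕ) : Opt (a + b + 3) {a, b}

/-- The moves of a position. -/
inductive Mv : Multiset ℕ → Multiset ℕ → Prop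
  | mk (h : ℕ) (A R : Multiset ℕ) (hA : Opt h A) : Mv (h ::ₘ R) (A + R)

/-- weight -/
def w (h : ℕ) : ℕ := if h = 2 ∨ h = 3 then 1 else (h - 4) / 2

/-- the size of the weight that is dominated by the heap -/
def s (h : ℕ) : ℕ := if h < 8 then 0 else if h = 9 then 2 else if h % 2 = 0 then h - 6 else h - 9

/-- total weight -/
def W (M : Multiset ℕ) : ℕ := (M.map w).sum

/-- the largest heap -/
def S (M : Multiset ℕ) : ℕ := (M.map s).sup

@[simp] theorem W_cons (h : ℕ) (R : Multiset ℕ) : W (h ::ₘ R) = w h + W R := by simp [W]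
@[simp] theorem W_add (A R : Multiset ℕ) : W (A + R) = W A + W R := by simp [W]
@[simp] theorem W_single (h : ℕ) : W {h} = w h := by simp [W]
@[simp] theorem W_pair (a b : ℕ) : W {a, b} = w a + w b := by simp [W]
@[simp] theorem W_zero : W 0 = 0 := by simp [W]
@[simp] theorem S_cons (h : ℕ) (R : Multiset ℕ) : S (h ::ₘ R) = max (s h) (S R) := by simp [S]
@[simp] theorem S_add (A R : Multiset ℕ) : S (A + R) = max (S A) (S R) := by simp [S]
@[simp] theorem S_single (h : ℕ) : S {h} = s h := by simp [S]
@[simp] theorem S_pair (a b : ℕ) : S {a, b} = max (s a) (s b) := by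
  simp [S, Multiset.insert_eq_cons]
@[simp] theorem S_zero : S 0 = 0 := by simp [S]

/-- The positions lost for the player to move. -/
def P (M : Multiset ℕ) : Prop :=
  (W M = 0 ∧ M.sum % 2 = 1) ∨ (0 < W M ∧ M.sum % 2 = 0 ∧ (W M ≤ S M ↔ W M % 2 = 1))

theorem s_even (h : ℕ) : s h % 2 = 0 := by
  unfold s; split_ifs <;> omega

theorem s_le (h : ℕ) : s h = 0 ∨ s h + 2 ≤ 2 * w h := by
  unfold s w; split_ifs <;> omega

theorem S_even (M : Multiset ℕ) : S M % 2 = 0 := by
  induction M using Multiset.induction with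
  | empty => simp
  | cons h R ih =>
    rw [S_cons]
    have := s_even h
    rcases max_choice (s h) (S R) with e | e <;> omega

theorem S_le (M : Multiset ℕ) : S M = 0 ∨ S M + 2 ≤ 2 * W M := by
  induction M using Multiset.induction with
  | empty => simp
  | cons h R ih =>
    rw [S_cons, W_cons]
    have := s_le h
    rcases max_choice (s h) (S R) with e | e <;> omega

theorem w_zero {h : ℕ} (hw : w h = 0) : h = 0 ∨ h = 1 ∨ h = 4 ∨ h = 5 := by
  unfold w at hw; split_ifs at hw; omega

theorem w_big {h : ℕ} (hh : 4 ≤ h) : w h = (h - 4) / 2 := by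
  unfold w; rw [if_neg (by omega)]

theorem s_even_big {h : ℕ} (hh : 10 ≤ h) (h2 : h % 2 = 0) : s h = h - 6 := by
  unfold s; rw [if_neg (by omega), if_neg (by omega), if_pos h2]

theorem s_odd_big {h : ℕ} (hh : 10 ≤ h) (h2 : h % 2 = 1) : s h = h - 9 := by
  unfold s; rw [if_neg (by omega), if_neg (by omega), if_neg (by omega)]

/-- The rule in terms of the weight, the sum and the largest heap. -/
def PP (W S T : ℕ) : Prop :=
  (W = 0 ∧ T % 2 = 1) ∨ (0 < W ∧ T % 2 = 0 ∧ (W ≤ S ↔ W % 2 = 1))

theorem PP_one {h WR SR TR : ℕ} (h1 : SR % 2 = 0) (h2 : SR = 0 ∨ SR + 2 ≤ 2 * WR)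
    (hP : PP (w (h + 1) + WR) (max (s (h + 1)) SR) (h + 1 + TR)) :
    ¬ PP (w h + WR) (max (s h) SR) (h + TR) := by
  rcases Nat.lt_or_ge h 12 with hh | hh
  · interval_cases h <;> simp only [w, s, PP] at hP ⊢ <;> norm_num at hP ⊢ <;> omega
  · rw [w_big (by omega)] at hP ⊢
    rcases Nat.mod_two_eq_zero_or_one h with h3 | h3
    · rw [s_odd_big (by omega) (by omega)] at hP
      rw [s_even_big (by omega) (by omega)]
      unfold PP at *
      omega
    · rw [s_even_big (by omega) (by omega)] at hP
      rw [s_odd_big (by omega) (by omega)]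
      unfold PP at *
      omega

theorem PP_two {h WR SR TR : ℕ} (h1 : SR % 2 = 0) (h2 : SR = 0 ∨ SR + 2 ≤ 2 * WR)
    (hP : PP (w (h + 2) + WR) (max (s (h + 2)) SR) (h + 2 + TR)) :
    ¬ PP (w h + WR) (max (s h) SR) (h + TR) := by
  rcases Nat.lt_or_ge h 12 with hh | hh
  · interval_cases h <;> simp only [w, s, PP] at hP ⊢ <;> norm_num at hP ⊢ <;> omega
  · rw [w_big (by omega)] at hP ⊢
    rcases Nat.mod_two_eq_zero_or_one h with h3 | h3
    · rw [s_even_big (by omega) (by omega)] at hP
      rw [s_even_big (by omega) (by omega)]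
      unfold PP at *
      omega
    · rw [s_odd_big (by omega) (by omega)] at hP
      rw [s_odd_big (by omega) (by omega)]
      unfold PP at *
      omega

theorem PP_three {a b WR SR TR : ℕ} (h2 : SR = 0 ∨ SR + 2 ≤ 2 * WR)
    (hP : PP (w (a + b + 3) + WR) (max (s (a + b + 3)) SR) (a + b + 3 + TR)) :
    ¬ PP (w a + w b + WR) (max (max (s a) (s b)) SR) (a + b + TR) := by
  rintro (⟨hP1, hP2⟩ | ⟨hP1, hP2, hP3⟩)
  · have ha : w a = 0 := by clear hP; omega
    have hb : w b = 0 := by clear hP; omega
    have hR : WR = 0 := by clear hP; omega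
    have hS : SR = 0 := by clear hP; omega
    subst hR hS
    rcases w_zero ha with rfl | rfl | rfl | rfl <;> rcases w_zero hb with rfl | rfl | rfl | rfl <;>
      simp only [w, s, PP] at hP <;> norm_num at hP <;> omega
  · have ht : WR = 0 ∧ w (a + b + 3) = 0 := by
      rcases hP with ⟨h3, h4⟩ | ⟨h3, h4, h5⟩
      · omega
      · exfalso
        clear h5
        omega
    have hS : SR = 0 := by clear hP hP3; omega
    obtain ⟨rfl, ht⟩ := ht
    subst hS
    have hab : a + b ≤ 2 := by
      rcases w_zero ht with h | h | h | h <;> omega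
    have ha : a ≤ 2 := by omega
    have hb : b ≤ 2 := by omega
    clear hP h2
    interval_cases a <;> interval_cases b <;> simp [w, s] at hP1 hP3 ht hab

theorem P_iff (M : Multiset ℕ) : P M ↔ PP (W M) (S M) M.sum := Iff.rfl

/-- A move from a lost position does not lead to a lost position. -/
theorem P.move {M M' : Multiset ℕ} (hP : P M) (hm : Mv M M') : ¬ P M' := by
  obtain ⟨h, A, R, hA⟩ := hm
  have h1 := S_even R
  have h2 := S_le R
  rw [P_iff] at hP ⊢
  cases hA with
  | one h =>
    simp only [W_cons, S_cons, W_add, W_single, S_add, S_single, Multiset.sum_cons,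
      Multiset.sum_add, Multiset.sum_singleton] at hP ⊢
    exact PP_one h1 h2 hP
  | two h =>
    simp only [W_cons, S_cons, W_add, W_single, S_add, S_single, Multiset.sum_cons,
      Multiset.sum_add, Multiset.sum_singleton] at hP ⊢
    exact PP_two h1 h2 hP
  | three a b =>
    have e : ({a, b} : Multiset ℕ).sum = a + b := by simp
    simp only [W_cons, S_cons, W_add, W_pair, S_add, S_pair, Multiset.sum_cons,
      Multiset.sum_add, e] at hP ⊢
    exact PP_three h2 hP

end Pool.Agent.R538.Heap
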