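import Pool.Agent.R538.Heap

/-!
# The misère outcomes of the octal game 0.337: the winning moves
-/

namespace Pool.Agent.R538.Heap

theorem pickW {M : Multiset ℕ} (h : 0 < W M) : ∃ g R, M = g ::ₘ R ∧ 0 < w g := by
  induction M using Multiset.induction with
  | empty => simp at h
  | cons a R ih =>
    rw [W_cons] at h
    rcases Nat.eq_zero_or_pos (w a) with h1 | h1
    · obtain ⟨g, R', rfl, h2⟩ := ih (by omega)
      exact ⟨g, a ::ₘ R', Multiset.cons_swap _ _ _, h2⟩
    · exact ⟨a, R, rfl, h1⟩

theorem pickS {M : Multiset ℕ} (h : 0 < S M) : ∃ g R, M = g ::ₘ R ∧ s g = S M := by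
  induction M using Multiset.induction with
  | empty => simp at h
  | cons a R ih =>
    rw [S_cons] at h ⊢
    rcases le_or_gt (S R) (s a) with h1 | h1
    · exact ⟨a, R, rfl, by rw [max_eq_left h1]⟩
    · obtain ⟨g, R', h3, h2⟩ := ih (by omega)
      refine ⟨g, a ::ₘ R', ?_, by rw [max_eq_right h1.le, h2]⟩
      rw [h3]
      exact Multiset.cons_swap _ _ _

theorem pickOdd {M : Multiset ℕ} (h : M.sum % 2 = 1) : ∃ g R, M = g ::ₘ R ∧ g % 2 = 1 := by
  induction M using Multiset.induction with
  | empty => simp at h
  | cons a R ih =>
    rw [Multiset.sum_cons] at h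
    rcases Nat.mod_two_eq_zero_or_one a with h1 | h1
    · obtain ⟨g, R', rfl, h2⟩ := ih (by omega)
      exact ⟨g, a ::ₘ R', Multiset.cons_swap _ _ _, h2⟩
    · exact ⟨a, R, rfl, h1⟩

theorem pickPos {M : Multiset ℕ} (h : 0 < M.sum) : ∃ g R, M = g ::ₘ R ∧ 0 < g := by
  induction M using Multiset.induction with
  | empty => simp at h
  | cons a R ih =>
    rw [Multiset.sum_cons] at h
    rcases Nat.eq_zero_or_pos a with h1 | h1
    · obtain ⟨g, R', rfl, h2⟩ := ih (by omega)
      exact ⟨g, a ::ₘ R', Multiset.cons_swap _ _ _, h2⟩
    · exact ⟨a, R, rfl, h1⟩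

/-- Some move leads to a lost position. -/
def Good (M : Multiset ℕ) : Prop := ∃ M', Mv M M' ∧ P M'

theorem good_one {g : ℕ} {R : Multiset ℕ} (hg : 1 ≤ g)
    (h : PP (w (g - 1) + W R) (max (s (g - 1)) (S R)) (g - 1 + R.sum)) : Good (g ::ₘ R) := by
  obtain ⟨g, rfl⟩ : ∃ k, g = k + 1 := ⟨g - 1, by omega⟩
  refine ⟨{g} + R, Mv.mk _ _ _ (Opt.one g), ?_⟩
  rw [P_iff]
  simpa using h

theorem good_two {g : ℕ} {R : Multiset ℕ} (hg : 2 ≤ g)
    (h : PP (w (g - 2) + W R) (max (s (g - 2)) (S R)) (g - 2 + R.sum)) : Good (g ::ₘ R) := by
  obtain ⟨g, rfl⟩ : ∃ k, g = k + 2 := ⟨g - 2, by omega⟩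
  refine ⟨{g} + R, Mv.mk _ _ _ (Opt.two g), ?_⟩
  rw [P_iff]
  simpa using h

theorem good_three {g : ℕ} {R : Multiset ℕ} (a b : ℕ) (hg : a + b + 3 = g)
    (h : PP (w a + w b + W R) (max (max (s a) (s b)) (S R)) (a + b + R.sum)) :
    Good (g ::ₘ R) := by
  subst hg
  refine ⟨{a, b} + R, Mv.mk _ _ _ (Opt.three a b), ?_⟩
  rw [P_iff]
  simpa [add_assoc] using h

theorem good_zero {M : Multiset ℕ} (h0 : 0 < M.sum) (hW : W M = 0) (hT : M.sum % 2 = 0) :
    Good M := by
  obtain ⟨g, R, rfl, hg⟩ := pickPos h0
  have h1 := S_le R
  rw [W_cons] at hW
  rw [Multiset.sum_cons] at hT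
  have h2 : W R = 0 := by omega
  have h3 : S R = 0 := by omega
  rcases w_zero (h := g) (by omega) with rfl | rfl | rfl | rfl
  · omega
  · refine good_one (by omega) ?_
    rw [h2, h3]
    left
    refine ⟨by simp [w], by omega⟩
  · refine good_three 0 1 (by omega) ?_
    rw [h2, h3]
    left
    refine ⟨by simp [w], by omega⟩
  · refine good_one (by omega) ?_
    rw [h2, h3]
    left
    refine ⟨by simp [w], by omega⟩

theorem good_dom {M : Multiset ℕ} (hW : 0 < W M) (hS : W M ≤ S M)
    (hN : ¬ (M.sum % 2 = 0 ∧ W M % 2 = 1)) : Good M := by
  obtain ⟨h, R, rfl, hh⟩ := pickS (M := M) (by omega)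
  have hle := S_le (h ::ₘ R)
  rw [← hh] at hS hle
  simp only [W_cons, Multiset.sum_cons] at hW hS hN hle
  have hR1 := S_even R
  have hR2 := S_le R
  have h8 : 8 ≤ h := by
    by_contra hc
    have : s h = 0 := by unfold s; rw [if_pos (by omega)]
    omega
  rw [S_cons] at hh
  have hRS : S R ≤ s h := by
    rw [hh]; exact le_max_right _ _
  rcases Nat.mod_two_eq_zero_or_one (h + R.sum) with hT | hT
  · -- even sum, so even weight
    have hWe : (w h + W R) % 2 = 0 := by omega
    rcases Nat.eq_zero_or_pos (W R) with h0 | h0
    · have hS0 : S R = 0 := by omega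
      rcases Nat.lt_or_ge h 18 with hlt | hge
      · rw [h0] at hWe hS
        interval_cases h <;> simp [w, s] at hWe hS
        · exact good_three 0 5 rfl (by rw [h0, hS0]; left; exact ⟨by simp [w], by omega⟩)
        · exact good_three 1 5 rfl (by rw [h0, hS0]; left; exact ⟨by simp [w], by omega⟩)
        · exact good_two (by omega) (by rw [h0, hS0]; right; simp [w, s]; omega)
        · exact good_three 5 5 rfl (by rw [h0, hS0]; left; exact ⟨by simp [w], by omega⟩)
        · exact good_two (by omega) (by rw [h0, hS0]; right; simp [w, s]; omega)
        · exact good_two (by omega) (by rw [h0, hS0]; right; simp [w, s]; omega)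
      · refine good_two (by omega) ?_
        rw [h0, hS0, w_big (by omega)]
        rw [h0, w_big (by omega)] at hWe hS
        right
        rcases Nat.mod_two_eq_zero_or_one h with h3 | h3
        · rw [s_even_big (by omega) (by omega)]
          omega
        · rw [s_odd_big (by omega) (by omega)]
          omega
    · obtain ⟨g, R', rfl, hg⟩ := pickW h0
      rw [Multiset.cons_swap]
      rw [S_cons] at hRS
      have hR3 := S_le R'
      simp only [W_cons, Multiset.sum_cons] at *
      have hg2 : 2 ≤ g := by
        by_contra hc
        have : w g = 0 := by unfold w; rw [if_neg (by omega)]; omega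
        omega
      have hg4 : w (g - 2) + 1 = w g := by
        unfold w at hg ⊢
        split_ifs at hg ⊢ <;> omega
      have hg5 : s (g - 2) ≤ s g := by
        unfold s
        split_ifs <;> omega
      refine good_two hg2 ?_
      simp only [W_cons, S_cons, Multiset.sum_cons]
      right
      omega
  · rcases Nat.mod_two_eq_zero_or_one (w h + W R) with hWe | hWe
    · -- odd sum, even weight
      rcases Nat.eq_zero_or_pos (W R) with h0 | h0
      · have hS0 : S R = 0 := by omega
        rw [h0] at hWe hS
        rcases Nat.lt_or_ge h 18 with hlt | hge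
        · interval_cases h <;> simp [w, s] at hWe hS
          · exact good_three 2 3 rfl (by rw [h0, hS0]; right; simp [w, s]; omega)
          · exact good_three 3 3 rfl (by rw [h0, hS0]; right; simp [w, s]; omega)
          · exact good_three 2 7 rfl (by rw [h0, hS0]; right; simp [w, s]; omega)
          · exact good_three 3 7 rfl (by rw [h0, hS0]; right; simp [w, s]; omega)
          · exact good_one (by omega) (by rw [h0, hS0]; right; simp [w, s]; omega)
          · exact good_three 0 14 rfl (by rw [h0, hS0]; right; simp [w, s]; omega)
        · rw [w_big (by omega)] at hWe hS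
          rcases Nat.mod_two_eq_zero_or_one h with h3 | h3
          · refine good_one (by omega) ?_
            rw [h0, hS0, w_big (by omega), s_odd_big (by omega) (by omega)]
            right
            omega
          · refine good_three 0 (h - 3) (by omega) ?_
            rw [h0, hS0, w_big (h := h - 3) (by omega), s_even_big (h := h - 3) (by omega) (by omega)]
            have e0 : w 0 = 0 := by simp [w]
            have e1 : s 0 = 0 := by simp [s]
            rw [e0, e1]
            right
            omega
      · obtain ⟨g, R', rfl, hg⟩ := pickW h0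
        rw [Multiset.cons_swap]
        rw [S_cons] at hRS
        have hR3 := S_le R'
        simp only [W_cons, Multiset.sum_cons] at *
        rcases Nat.mod_two_eq_zero_or_one g with h3 | h3
        · have hg2 : 2 ≤ g := by
            by_contra hc
            have : w g = 0 := by unfold w; rw [if_neg (by omega)]; omega
            omega
          have hg4 : w (g - 1) + 1 = w g := by
            unfold w at hg ⊢
            split_ifs at hg ⊢ <;> omega
          refine good_one (by omega) ?_
          simp only [W_cons, S_cons, Multiset.sum_cons]
          right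
          omega
        · have hg2 : 3 ≤ g := by
            by_contra hc
            have : w g = 0 := by unfold w; rw [if_neg (by omega)]; omega
            omega
          have hg4 : w (g - 3) + 1 = w g := by
            unfold w at hg ⊢
            split_ifs at hg ⊢ <;> omega
          refine good_three 0 (g - 3) (by omega) ?_
          have e0 : w 0 = 0 := by simp [w]
          have e1 : s 0 = 0 := by simp [s]
          simp only [W_cons, S_cons, Multiset.sum_cons, e0, e1]
          right
          omega
    · -- odd sum, odd weight
      obtain ⟨g, R', hgR, hg⟩ := pickOdd (M := h ::ₘ R) (by rw [Multiset.sum_cons]; exact hT)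
      have hS' : w h + W R ≤ S (h ::ₘ R) := by rw [S_cons]; omega
      have hW' : W (h ::ₘ R) = w h + W R := W_cons _ _
      have hT' : (h ::ₘ R).sum = h + R.sum := Multiset.sum_cons _ _
      rw [hgR] at hS' hW' hT' ⊢
      rw [W_cons] at hW'
      rw [S_cons] at hS'
      rw [Multiset.sum_cons] at hT'
      have hg4 : w (g - 1) = w g := by
        unfold w
        split_ifs <;> omega
      have hg5 : s g ≤ s (g - 1) := by
        unfold s
        split_ifs <;> omega
      refine good_one (by omega) ?_
      right
      omega

theorem w_two {g : ℕ} (hg : 0 < w g) : 2 ≤ g ∧ w (g - 2) + 1 = w g ∧ s (g - 2) ≤ s g := by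
  have hg2 : 2 ≤ g := by
    by_contra hc
    have : w g = 0 := by unfold w; rw [if_neg (by omega)]; omega
    omega
  refine ⟨hg2, ?_, ?_⟩
  · unfold w at hg ⊢
    split_ifs at hg ⊢ <;> omega
  · unfold s
    split_ifs <;> omega

theorem w_one {g : ℕ} (hg : 0 < w g) (h : g % 2 = 0) :
    1 ≤ g ∧ w (g - 1) + 1 = w g ∧ s (g - 1) ≤ s g := by
  have hg2 := (w_two hg).1
  refine ⟨by omega, ?_, ?_⟩
  · unfold w at hg ⊢
    split_ifs at hg ⊢ <;> omega
  · unfold s
    split_ifs <;> omega

theorem w_three {g : ℕ} (hg : 0 < w g) (h : g % 2 = 1) :
    3 ≤ g ∧ w (g - 3) + 1 = w g ∧ s (g - 3) ≤ s g := by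
  have hg2 := (w_two hg).1
  refine ⟨by omega, ?_, ?_⟩
  · unfold w at hg ⊢
    split_ifs at hg ⊢ <;> omega
  · unfold s
    split_ifs <;> omega

theorem w_eq_one {g : ℕ} (hg : w g = 1) : g = 2 ∨ g = 3 ∨ g = 6 ∨ g = 7 := by
  unfold w at hg
  split_ifs at hg <;> omega

theorem w0 : w 0 = 0 := by simp [w]

theorem s0 : s 0 = 0 := by simp [s]

theorem good_non {M : Multiset ℕ} (hW : 0 < W M) (hS : S M < W M)
    (hN : ¬ (M.sum % 2 = 0 ∧ W M % 2 = 0)) : Good M := by
  have hSe := S_even M
  have hSl := S_le M
  rcases Nat.mod_two_eq_zero_or_one (W M) with hWe | hWe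
  · -- even weight, odd sum
    have hT : M.sum % 2 = 1 := by omega
    obtain ⟨g, R, rfl, hg⟩ := pickOdd hT
    have hR1 := S_even R
    have hR2 := S_le R
    simp only [W_cons, S_cons, Multiset.sum_cons] at *
    by_cases hc : 11 ≤ g ∧ g - 7 = w g + W R
    · obtain ⟨hc1, hc2⟩ := hc
      refine good_three 1 (g - 4) (by omega) ?_
      have e1 : w 1 = 0 := by simp [w]
      have e2 : s 1 = 0 := by simp [s]
      rw [e1, e2]
      rcases Nat.lt_or_ge g 18 with hlt | hge
      · interval_cases g <;> simp [w, s, PP] at * <;> omega
      · rw [w_big (by omega)] at hW hS hWe hc2 hSl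
        rw [w_big (h := g - 4) (by omega), s_odd_big (h := g - 4) (by omega) (by omega)]
        rw [s_odd_big (by omega) (by omega)] at hS hSe hSl
        right
        omega
    · refine good_one (by omega) ?_
      have hg4 : w (g - 1) = w g := by
        unfold w
        split_ifs <;> omega
      rw [hg4]
      rcases Nat.lt_or_ge g 11 with hlt | hge
      · interval_cases g <;> simp [w, s, PP] at * <;> omega
      · rw [s_even_big (h := g - 1) (by omega) (by omega)]
        rw [s_odd_big (by omega) (by omega)] at hS hSe hSl
        right
        omega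
  · -- odd weight
    rcases Nat.lt_or_ge 1 (W M) with h1 | h1
    · by_cases hc : S M = W M - 1
      · obtain ⟨h, R, rfl, hh⟩ := pickS (M := M) (by omega)
        have hR1 := S_even R
        have hR2 := S_le R
        rw [← hh] at hc hS hSe hSl
        rw [S_cons] at hh
        have hh' : S R ≤ s h := by rw [hh]; exact le_max_right _ _
        simp only [W_cons, Multiset.sum_cons] at *
        have h8 : 8 ≤ h := by
          by_contra hc'
          have : s h = 0 := by unfold s; rw [if_pos (by omega)]
          omega
        rcases Nat.mod_two_eq_zero_or_one (h + R.sum) with hT | hT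
        · rcases Nat.lt_or_ge h 18 with hlt | hge
          · by_cases h11 : h = 11
            · subst h11
              simp [w, s] at *
              refine good_three 4 4 rfl ?_
              left
              simp [w]
              omega
            · refine good_two (by omega) ?_
              interval_cases h <;> simp [w, s, PP] at * <;> omega
          · refine good_two (by omega) ?_
            rw [w_big (by omega)] at *
            rcases Nat.mod_two_eq_zero_or_one h with h3 | h3
            · rw [s_even_big (by omega) (by omega)] at *
              right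
              omega
            · rw [s_odd_big (by omega) (by omega)] at *
              right
              omega
        · rcases Nat.mod_two_eq_zero_or_one h with h3 | h3
          · refine good_one (by omega) ?_
            rcases Nat.lt_or_ge h 18 with hlt | hge
            · interval_cases h <;> simp [w, s, PP] at * <;> omega
            · rw [w_big (by omega)] at *
              rw [s_even_big (by omega) (by omega)] at hc hS hSe hSl hh'
              rw [s_odd_big (by omega) (by omega)]
              right
              omega
          · rcases Nat.lt_or_ge h 11 with hlt | hge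
            · refine good_three 0 (h - 3) (by omega) ?_
              interval_cases h <;> simp [w, s, PP] at * <;> omega
            · refine good_three 2 (h - 5) (by omega) ?_
              have e1 : w 2 = 1 := by simp [w]
              have e2 : s 2 = 0 := by simp [s]
              rw [e1, e2]
              rcases Nat.lt_or_ge h 18 with hlt | hge
              · interval_cases h <;> simp [w, s, PP] at * <;> omega
              · rw [w_big (by omega)] at hW hS hWe hc hSl h1
                rw [s_odd_big (by omega) (by omega)] at hc hS hSe hSl hh'
                rw [w_big (h := h - 5) (by omega), s_even_big (h := h - 5) (by omega) (by omega)]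
                right
                omega
      · obtain ⟨g, R, rfl, hg⟩ := pickW hW
        have hR1 := S_even R
        have hR2 := S_le R
        simp only [W_cons, S_cons, Multiset.sum_cons] at *
        rcases Nat.mod_two_eq_zero_or_one (g + R.sum) with hT | hT
        · obtain ⟨h3, h4, h5⟩ := w_two hg
          refine good_two h3 ?_
          right
          omega
        · rcases Nat.mod_two_eq_zero_or_one g with h6 | h6
          · obtain ⟨h3, h4, h5⟩ := w_one hg h6
            refine good_one h3 ?_
            right
            omega
          · obtain ⟨h3, h4, h5⟩ := w_three hg h6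
            refine good_three 0 (g - 3) (by omega) ?_
            rw [w0, s0]
            right
            omega
    · obtain ⟨g, R, rfl, hg⟩ := pickW hW
      have hR2 := S_le R
      simp only [W_cons, S_cons, Multiset.sum_cons] at *
      have hWR : W R = 0 := by omega
      have hSR : S R = 0 := by omega
      rcases w_eq_one (g := g) (by omega) with rfl | rfl | rfl | rfl
      · rcases Nat.mod_two_eq_zero_or_one R.sum with hT | hT
        · exact good_one (by omega) (by rw [hWR, hSR]; left; simp [w]; omega)
        · exact good_two (by omega) (by rw [hWR, hSR]; left; simp [w]; omega)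
      · rcases Nat.mod_two_eq_zero_or_one R.sum with hT | hT
        · exact good_two (by omega) (by rw [hWR, hSR]; left; simp [w]; omega)
        · exact good_three 0 0 rfl (by rw [hWR, hSR]; left; simp [w]; omega)
      · rcases Nat.mod_two_eq_zero_or_one R.sum with hT | hT
        · exact good_one (by omega) (by rw [hWR, hSR]; left; simp [w]; omega)
        · exact good_two (by omega) (by rw [hWR, hSR]; left; simp [w]; omega)
      · rcases Nat.mod_two_eq_zero_or_one R.sum with hT | hT
        · exact good_two (by omega) (by rw [hWR, hSR]; left; simp [w]; omega)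
        · exact good_three 0 4 rfl (by rw [hWR, hSR]; left; simp [w]; omega)

/-- From every position that is not lost some move leads to a lost position, unless there is no
move. -/
theorem good_of_not_P {M : Multiset ℕ} (h0 : 0 < M.sum) (hP : ¬ P M) : Good M := by
  unfold P at hP
  push Not at hP
  obtain ⟨h1, h2⟩ := hP
  rcases Nat.eq_zero_or_pos (W M) with hW | hW
  · exact good_zero h0 hW (by have := h1 hW; omega)
  · rcases le_or_gt (W M) (S M) with hS | hS
    · refine good_dom hW hS ?_
      rintro ⟨h3, h4⟩
      have := h2 hW h3
      omega
    · refine good_non hW hS ?_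
      rintro ⟨h3, h4⟩
      have := h2 hW h3
      omega

end Pool.Agent.R538.Heap
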